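import Pool.Agent.H97.S6.Zne
import Pool.Agent.H86.S6C.Trv
import Pool.Agent.H75.S6C.Ths

/-!
# The zone of the local data, rising case: proof of (ZNE)
-/

set_option autoImplicit false

namespace Pool.S6N31

open Finset Real
open Pool.Agent.H49.Ent Pool.Agent.H32.Dense Pool.STK Pool.KA Pool.KSAT Pool.K2S Pool.PB Pool.KS6
  Pool.S6C Pool.Sel51 Pool.S6N

/-- A slope gives an affine approximation on intervals. -/
theorem slp_aff {f : ℚ → ℝ} {x v s : ℝ} (h : Slp f x v s) {C ε : ℝ} (hC : 0 < C) (hε : 0 < ε) :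
    ∃ l₀ : ℝ, 0 < l₀ ∧ ∀ l : ℝ, 0 < l → l ≤ l₀ → ∀ q : ℚ, |(q : ℝ) - x| ≤ C * l →
      |f q - v - s * (q - x)| ≤ ε * l := by
  obtain ⟨δ, hδ, h1⟩ := h (ε / C) (div_pos hε hC)
  refine ⟨δ / (2 * C), by positivity, fun l hl hl0 q hq => ?_⟩
  have e1 : C * l < δ := by
    have : C * l ≤ C * (δ / (2 * C)) := mul_le_mul_of_nonneg_left hl0 hC.le
    have e : C * (δ / (2 * C)) = δ / 2 := by field_simp
    linarith
  refine (h1 q (lt_of_le_of_lt hq e1)).trans ?_
  calc ε / C * |(q : ℝ) - x| ≤ ε / C * (C * l) := mul_le_mul_of_nonneg_left hq (by positivity)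
    _ = ε * l := by field_simp

/-- The directions at the window, from monotonicity. -/
theorem slp_le_of_mono {f : ℚ → ℝ} {x v s : ℝ} (h : Slp f x v s) {w₁ : ℚ} (hx : x < w₁)
    (hx0 : 0 < x) (hw : w₁ ≤ 1)
    (hm : ∀ q q' : ℚ, 0 ≤ q → q ≤ q' → q' ≤ 1 → f q ≤ f q') : v ≤ f w₁ := by
  refine le_of_forall_pos_le_add fun e he => ?_
  obtain ⟨l₀, hl₀, h1⟩ := slp_aff h (C := 1) (ε := 1) one_pos one_pos
  obtain ⟨l, hl⟩ : ∃ l, l = min (min l₀ (e / (2 * (|s| + 1)))) (w₁ - x) := ⟨_, rfl⟩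
  have hl0 : 0 < l := by
    rw [hl]
    have : (0 : ℝ) < w₁ - x := by linarith
    positivity
  have hl1 : l ≤ l₀ := by rw [hl]; exact (min_le_left _ _).trans (min_le_left _ _)
  have hl2 : l ≤ e / (2 * (|s| + 1)) := by
    rw [hl]; exact (min_le_left _ _).trans (min_le_right _ _)
  have hl3 : l ≤ w₁ - x := by rw [hl]; exact min_le_right _ _
  obtain ⟨q, hq1, hq2⟩ := exists_rat_btwn (show x < x + l by linarith)
  have hqa : |(q : ℝ) - x| ≤ 1 * l := by rw [abs_of_pos (by linarith)]; linarith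
  have h2 := (abs_le.1 (h1 l hl0 hl1 q hqa)).1
  have h3 : f q ≤ f w₁ := by
    refine hm q w₁ ?_ ?_ hw
    · have : (0 : ℝ) < q := by linarith
      exact_mod_cast this.le
    · have : (q : ℝ) ≤ w₁ := by linarith
      exact_mod_cast this
  have h4 : |s * ((q : ℝ) - x)| ≤ |s| * l := by
    rw [abs_mul]
    exact mul_le_mul_of_nonneg_left (by linarith) (abs_nonneg s)
  have h5 := (abs_le.1 h4).1
  have h6 : (|s| + 1) * l ≤ e / 2 := by
    have hs : (0 : ℝ) < |s| + 1 := by positivity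
    calc (|s| + 1) * l ≤ (|s| + 1) * (e / (2 * (|s| + 1))) := mul_le_mul_of_nonneg_left hl2 hs.le
      _ = e / 2 := by field_simp
  nlinarith

/-- A derivative gives an affine approximation of increments. -/
theorem der_aff {r : ℝ → ℝ} {r' P : ℝ} (h : HasDerivAt r r' P) {C ε : ℝ} (hC : 0 < C)
    (hε : 0 < ε) : ∃ l₀ : ℝ, 0 < l₀ ∧ ∀ l : ℝ, 0 < l → l ≤ l₀ → ∀ y : ℝ, |y - P| ≤ C * l →
      |r y - r P - r' * (y - P)| ≤ ε * l := by
  have h1 := (hasDerivAt_iff_isLittleO.1 h).def (div_pos hε hC)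
  rw [Metric.eventually_nhds_iff] at h1
  obtain ⟨δ, hδ, h1⟩ := h1
  refine ⟨δ / (2 * C), by positivity, fun l hl hl0 y hy => ?_⟩
  have e1 : C * l < δ := by
    have : C * l ≤ C * (δ / (2 * C)) := mul_le_mul_of_nonneg_left hl0 hC.le
    have e : C * (δ / (2 * C)) = δ / 2 := by field_simp
    linarith
  have h2 := h1 (y := y) (by rw [Real.dist_eq]; exact lt_of_le_of_lt hy e1)
  rw [Real.norm_eq_abs, Real.norm_eq_abs, smul_eq_mul] at h2
  have h3 : r y - r P - r' * (y - P) = r y - r P - (y - P) * r' := by ring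
  rw [h3]
  refine h2.trans ?_
  calc ε / C * |y - P| ≤ ε / C * (C * l) := mul_le_mul_of_nonneg_left hy (by positivity)
    _ = ε * l := by field_simp

/-- A mesh of rational numbers. -/
theorem exists_mesh {a b a' b' k e : ℝ} (hab : a < a') (ha : a' < b) (hb : b < b') (hk : 0 < k)
    (he : 0 < e) : ∃ (N : ℕ) (u : ℕ → ℚ), (∀ j < N, u (j + 1) < u j) ∧
      (∀ j < N, k * ((u j : ℝ) - u (j + 1)) ≤ e) ∧ b < u 0 ∧ (u 0 : ℝ) < b' ∧ a < u N ∧
      (u N : ℝ) < a' := by
  obtain ⟨x, hx1, hx2⟩ := exists_rat_btwn hab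
  obtain ⟨y, hy1, hy2⟩ := exists_rat_btwn hb
  obtain ⟨n, hn⟩ := exists_nat_gt (k * ((y : ℝ) - x) / e)
  have hxy : x < y := by
    have : (x : ℝ) < y := by linarith
    exact_mod_cast this
  have hxy' : (0 : ℝ) < (y : ℝ) - x := by
    have : (x : ℝ) < y := by exact_mod_cast hxy
    linarith
  have hn0 : (0 : ℝ) < n := lt_of_le_of_lt (by positivity) hn
  have hnq : (0 : ℚ) < n := by exact_mod_cast hn0
  refine ⟨n, fun j => y - j * ((y - x) / n), fun j _ => ?_, fun j _ => ?_, ?_, ?_, ?_, ?_⟩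
  · have : 0 < (y - x) / n := div_pos (by linarith) hnq
    push_cast
    linarith
  · have e1 : (((y - (j : ℚ) * ((y - x) / n) : ℚ)) : ℝ) -
        (((y - ((j + 1 : ℕ) : ℚ) * ((y - x) / n) : ℚ)) : ℝ) = ((y : ℝ) - x) / n := by
      push_cast
      ring
    rw [e1, ← mul_div_assoc, div_le_iff₀ hn0]
    rw [div_lt_iff₀ he] at hn
    linarith
  · simpa using hy1
  · simpa using hy2
  · have : y - (n : ℚ) * ((y - x) / n) = x := by field_simp; ring
    beta_reduce
    rw [this]; exact hx1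
  · have : y - (n : ℚ) * ((y - x) / n) = x := by field_simp; ring
    beta_reduce
    rw [this]; exact hx2

/-- **(ZNE)** The zone exists at all small scales. -/
theorem zne_thm : ZNEStmt := by
  intro S a R h₁ i₀ c s₂ r D σ hC act K W v₁ t e₁ Q₀ P g v₀ v ρ a₀ α hL hvρ CZ ε hCZ hε
  have hw0 := hL.w0
  have hprg := hL.pr g hL.thk
  have hprP := hL.pr P hL.row
  have hgP := hL.gP
  have hg2 := hprg.half
  have hP1 := hprP.lt1
  have hR1 := hC.row 1 one_pos le_rfl hC.D1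
  have hgv : W g < v₁ := hL.adm.ab g hL.thk
  have hv1 : (v₁ : ℝ) < 1 := by exact_mod_cast hL.adm.v1
  have hWgP : W g ≤ W P := (hL.mono g hL.thk P hL.row hgP.le).1
  have hW1 : W g < 1 := by linarith
  -- the directions at the window
  obtain ⟨w₁, hw1, hw1', hb1, hb2⟩ := hL.beta
  have hQ1 := (hL.pr Q₀ hL.top).lt1
  have hWQ : W Q₀ < v₁ := hL.adm.ab Q₀ hL.top
  have hw11 : w₁ ≤ 1 := by
    have : (w₁ : ℝ) ≤ 1 := by linarith
    exact_mod_cast this
  have hvr : v₀ ≤ (σ 1).rot w₁ :=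
    slp_le_of_mono hL.rot (lt_of_le_of_lt hWgP hw1) hw0 hw11 fun q q' h0 h1 h2 =>
      rw_thm S a R h₁ i₀ c s₂ r D σ hC 1 one_pos le_rfl hC.D1 q q' h0 h1 h2
  have hpi1 : (σ 1).pi ≤ 1 := num_le_cap hC.ne zero_le_one hR1.pi
  -- the transversality
  have htr : W g + v₀ < g := by
    obtain ⟨l₁, hl₁, k1⟩ := slp_aff hL.rot (C := 1) (ε := (ρ - v) / 8) one_pos (by linarith)
    obtain ⟨l₂, hl₂, k2⟩ := slp_aff hL.th (C := 1) (ε := (ρ - v) / 8) one_pos (by linarith)
    obtain ⟨l, hl⟩ : ∃ l, l = min (min l₁ l₂) (min (W g / 2) ((1 - g) / (2 * (2 + ρ + v)))) :=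
      ⟨_, rfl⟩
    have hv0 := hL.v0
    have hρ0 := hL.ρ0
    have hl0 : 0 < l := by
      rw [hl]
      have : 0 < 1 - g := by linarith
      positivity
    have hl1 : l ≤ l₁ := by rw [hl]; exact (min_le_left _ _).trans (min_le_left _ _)
    have hl2 : l ≤ l₂ := by rw [hl]; exact (min_le_left _ _).trans (min_le_right _ _)
    have hl3 : l ≤ W g / 2 := by rw [hl]; exact (min_le_right _ _).trans (min_le_left _ _)
    obtain ⟨q, hq1, hq2⟩ := exists_rat_btwn (show W g - l < W g - l / 2 by linarith)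
    have hqa : |(q : ℝ) - W g| ≤ 1 * l := by rw [abs_of_neg (by linarith)]; linarith
    have e1 := (abs_le.1 (k1 l hl0 hl1 q hqa)).1
    have e2 := (abs_le.1 (k2 l hl0 hl2 q hqa)).2
    have hq0 : (0 : ℝ) < q := by linarith
    have hq0' : 0 ≤ q := by exact_mod_cast hq0.le
    have hq1' : (q : ℝ) ≤ 1 := by linarith
    have e3 := trv hC le_rfl hR1 q hq0' hq1'
    have e4 : (σ 1).th q < 1 := by
      have : (1 + ρ) * ((q : ℝ) - W g) ≤ 0 := mul_nonpos_of_nonneg_of_nonpos (by linarith)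
        (by linarith)
      have hl4 : l ≤ (1 - g) / (2 * (2 + ρ + v)) := by
        rw [hl]; exact (min_le_right _ _).trans (min_le_right _ _)
      rw [le_div_iff₀ (by linarith)] at hl4
      have e5 : (ρ - v) / 8 * l ≤ l * (2 * (2 + ρ + v)) / 2 := by nlinarith
      linarith
    have e5 : (q : ℝ) + (σ 1).rot q ≤ (σ 1).th q := by
      rcases min_le_iff.1 e3 with h | h
      · exact h
      · linarith
    have e6 : (ρ - v) * ((q : ℝ) - W g) ≤ (ρ - v) * (-(l / 2)) :=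
      mul_le_mul_of_nonneg_left (by linarith) (by linarith)
    nlinarith
  -- the approximations
  obtain ⟨C₁, hC₁⟩ : ∃ C₁, C₁ = CZ + 1 := ⟨_, rfl⟩
  have hC₁0 : 0 < C₁ := by rw [hC₁]; linarith
  obtain ⟨l₁, hl₁, k1⟩ := slp_aff hL.rot (C := C₁) (ε := ε) hC₁0 hε
  obtain ⟨l₂, hl₂, k2⟩ := slp_aff hL.th (C := C₁) (ε := ε) hC₁0 hε
  obtain ⟨l₃, hl₃, k3⟩ := slp_aff hL.aslp (C := C₁) (ε := ε) hC₁0 hε
  obtain ⟨r', hr', hder⟩ := hL.rate
  obtain ⟨l₄, hl₄, k4⟩ := der_aff hder (C := C₁) (ε := ε / 2) hC₁0 (by linarith)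
  -- the gaps
  have hv0 := hL.v0
  have hρ0 := hL.ρ0
  have hv00 : 0 ≤ v₀ := by
    refine le_of_forall_pos_le_add fun e he => ?_
    obtain ⟨l₅, hl₅, k5⟩ := slp_aff hL.rot (C := 1) (ε := 1) one_pos one_pos
    obtain ⟨l, hl⟩ : ∃ l, l = min (min l₅ (W g / 2)) (e / (1 + v)) := ⟨_, rfl⟩
    have hl0 : 0 < l := by rw [hl]; positivity
    have hl1 : l ≤ l₅ := by rw [hl]; exact (min_le_left _ _).trans (min_le_left _ _)
    have hl3 : l ≤ W g / 2 := by rw [hl]; exact (min_le_left _ _).trans (min_le_right _ _)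
    have hl4 : l ≤ e / (1 + v) := by rw [hl]; exact min_le_right _ _
    rw [le_div_iff₀ (by linarith)] at hl4
    obtain ⟨q, hq1, hq2⟩ := exists_rat_btwn (show W g - l < W g by linarith)
    have hqa : |(q : ℝ) - W g| ≤ 1 * l := by rw [abs_of_neg (by linarith)]; linarith
    have e1 := (abs_le.1 (k5 l hl0 hl1 q hqa)).2
    have hq0 : (0 : ℝ) < q := by linarith
    have hq0' : 0 ≤ q := by exact_mod_cast hq0.le
    have hq1' : q ≤ 1 := by
      have : (q : ℝ) ≤ 1 := by linarith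
      exact_mod_cast this
    have e2 : 0 ≤ (σ 1).rot q := num_nonneg hC.ne (hR1.rot q hq0' hq1')
    have e3 : v * ((q : ℝ) - W g) ≤ 0 := mul_nonpos_of_nonneg_of_nonpos hv0 (by linarith)
    nlinarith
  have hsm := hL.small
  have hvel := hL.vel
  have hgam := hL.gam
  obtain ⟨M, hM⟩ : ∃ M, M = (2 + v + ρ) * C₁ + 42 * ε := ⟨_, rfl⟩
  have hM0 : 0 < M := by rw [hM]; positivity
  have hM1 : C₁ ≤ M := by rw [hM]; nlinarith
  obtain ⟨μ, hμ⟩ : ∃ μ, μ = min (min (min ((σ 1).pi - (P - g) - v₀) ((σ 1).sN v₁ t - (P - W g)))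
      (min (t - v₁ + e₁ - (P - W g)) (e₁ - (P - g)))) (min (min (v₁ - W g) (1 - P))
      (min (P - g) (min (W g) (g - W g - v₀)))) := ⟨_, rfl⟩
  have hμ0 : 0 < μ := by
    rw [hμ]
    refine lt_min (lt_min (lt_min ?_ ?_) (lt_min ?_ ?_)) (lt_min (lt_min ?_ ?_) (lt_min ?_
      (lt_min ?_ ?_))) <;> linarith
  have m1 : μ ≤ (σ 1).pi - (P - g) - v₀ := by
    rw [hμ]; exact (min_le_left _ _).trans ((min_le_left _ _).trans (min_le_left _ _))
  have m2 : μ ≤ (σ 1).sN v₁ t - (P - W g) := by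
    rw [hμ]; exact (min_le_left _ _).trans ((min_le_left _ _).trans (min_le_right _ _))
  have m3 : μ ≤ t - v₁ + e₁ - (P - W g) := by
    rw [hμ]; exact (min_le_left _ _).trans ((min_le_right _ _).trans (min_le_left _ _))
  have m4 : μ ≤ e₁ - (P - g) := by
    rw [hμ]; exact (min_le_left _ _).trans ((min_le_right _ _).trans (min_le_right _ _))
  have m5 : μ ≤ v₁ - W g := by
    rw [hμ]; exact (min_le_right _ _).trans ((min_le_left _ _).trans (min_le_left _ _))
  have m6 : μ ≤ 1 - P := by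
    rw [hμ]; exact (min_le_right _ _).trans ((min_le_left _ _).trans (min_le_right _ _))
  have m7 : μ ≤ P - g := by
    rw [hμ]; exact (min_le_right _ _).trans ((min_le_right _ _).trans (min_le_left _ _))
  have m8 : μ ≤ W g := by
    rw [hμ]
    exact (min_le_right _ _).trans ((min_le_right _ _).trans ((min_le_right _ _).trans
      (min_le_left _ _)))
  have m9 : μ ≤ g - W g - v₀ := by
    rw [hμ]
    exact (min_le_right _ _).trans ((min_le_right _ _).trans ((min_le_right _ _).trans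
      (min_le_right _ _)))
  refine ⟨min (min (min l₁ l₂) (min l₃ l₄)) (μ / (2 * M)), by positivity, fun l hl hl0 => ?_⟩
  have g1 : l ≤ l₁ := hl0.trans ((min_le_left _ _).trans ((min_le_left _ _).trans (min_le_left _ _)))
  have g2 : l ≤ l₂ :=
    hl0.trans ((min_le_left _ _).trans ((min_le_left _ _).trans (min_le_right _ _)))
  have g3 : l ≤ l₃ :=
    hl0.trans ((min_le_left _ _).trans ((min_le_right _ _).trans (min_le_left _ _)))
  have g4 : l ≤ l₄ :=
    hl0.trans ((min_le_left _ _).trans ((min_le_right _ _).trans (min_le_right _ _)))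
  have g5 : M * l < μ := by
    have h1 := hl0.trans (min_le_right _ _)
    rw [le_div_iff₀ (by positivity)] at h1
    nlinarith
  have g6 : C₁ * l < μ := lt_of_le_of_lt (mul_le_mul_of_nonneg_right hM1 hl.le) g5
  have g7 : CZ * l < μ := lt_of_le_of_lt (mul_le_mul_of_nonneg_right (by rw [hC₁]; linarith) hl.le) g6
  have g8 : (2 + v + ρ) * (C₁ * l) + 42 * (ε * l) < μ := by
    have : M * l = (2 + v + ρ) * (C₁ * l) + 42 * (ε * l) := by rw [hM]; ring
    linarith
  have hεl : 0 < ε * l := by positivity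
  have hCl : 0 < CZ * l := by positivity
  have hC₁l : C₁ * l = CZ * l + l := by rw [hC₁]; ring
  obtain ⟨N, u, n1, n2, n3, n4, n5, n6⟩ := exists_mesh (a := W g - C₁ * l) (a' := W g - CZ * l)
    (b := W g + CZ * l) (b' := W g + C₁ * l) (k := 1 + v + ρ) (e := ε * l) (by linarith)
    (by linarith) (by linarith) (by linarith) hεl
  have hr : C₁ * l = (CZ + 1) * l := by rw [hC₁]
  refine ⟨N, u, ⟨hv0, hρ0, hvρ.le, hεl, n1, n2, ?_, ?_, ?_⟩, n3, by rw [← hr]; exact n4,
    by rw [← hr]; exact n5, n6, ?_, ?_, by linarith, by linarith, by linarith, by linarith,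
    by linarith, by linarith, by linarith, by linarith, by linarith, by linarith, by linarith⟩
  · have : (0 : ℝ) < u N := by linarith
    exact_mod_cast this
  · have : (u 0 : ℝ) < 1 := by linarith
    exact_mod_cast this
  · intro q hq1 hq2
    have hq1' : (u N : ℝ) ≤ q := by exact_mod_cast hq1
    have hq2' : (q : ℝ) ≤ u 0 := by exact_mod_cast hq2
    have hqa : |(q : ℝ) - W g| ≤ C₁ * l := abs_le.2 ⟨by linarith, by linarith⟩
    have f1 := k1 l hl g1 q hqa
    have f2 := k2 l hl g2 q hqa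
    have f3 := abs_le.1 hqa
    have f4 := (abs_le.1 f1).2
    have f5 := (abs_le.1 f2).2
    have x1 : v * ((q : ℝ) - W g) ≤ v * (C₁ * l) := mul_le_mul_of_nonneg_left f3.2 hv0
    have x2 : (1 + ρ) * ((q : ℝ) - W g) ≤ (1 + ρ) * (C₁ * l) :=
      mul_le_mul_of_nonneg_left f3.2 (by linarith)
    have x3 : ρ * (-(C₁ * l)) ≤ ρ * ((q : ℝ) - W g) := mul_le_mul_of_nonneg_left f3.1 hρ0
    have x4 : 0 ≤ ρ * (C₁ * l) := by positivity
    have x5 : 0 ≤ v * (C₁ * l) := by positivity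
    have x6 : (2 + v + ρ) * (C₁ * l) = 2 * (C₁ * l) + v * (C₁ * l) + ρ * (C₁ * l) := by ring
    have x7 : (1 + ρ) * (C₁ * l) = C₁ * l + ρ * (C₁ * l) := by ring
    have x8 : ρ * (-(C₁ * l)) = -(ρ * (C₁ * l)) := by ring
    have x9 : 0 < C₁ * l := by positivity
    refine ⟨f1, f2, ?_, ?_, ?_⟩
    · linarith
    · linarith
    · linarith
  · intro q hq
    have f3 := abs_le.1 hq
    refine ⟨?_, ?_, ?_⟩
    · have : (0 : ℝ) ≤ q := by linarith
      exact_mod_cast this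
    · have : (q : ℝ) ≤ 1 := by linarith
      exact_mod_cast this
    · exact k3 l hl g3 q (hq.trans (by linarith))
  · intro P' P'' hPP h1 h2
    have f1 := abs_le.1 h1
    have f2 := abs_le.1 h2
    refine ⟨by linarith, by linarith, ?_⟩
    have f3 := abs_le.1 (k4 l hl g4 P' (h1.trans (by linarith)))
    have f4 := abs_le.1 (k4 l hl g4 P'' (h2.trans (by linarith)))
    have f5 : r' * (P'' - P') ≤ (3 - c) * (P'' - P') :=
      mul_le_mul_of_nonneg_right hr' (by linarith)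
    have f6 : r' * (P'' - P') = r' * (P'' - P) - r' * (P' - P) := by ring
    linarith [f3.1, f4.2]

end Pool.S6N31
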